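import Pool.Agent.Lib.MP_43d240_ag.FZ.Iface

/-!
PROJECT PI, frozen side, module SPAN: reduction to squarefree monomials in the square roots.
-/

set_option linter.unusedSectionVars false

namespace Pool.Agent.PI.FZ.H38

open MvPolynomial

section

variable {k J Λ : Type} [Field k] [Fintype J] [Fintype Λ] [DecidableEq J] [DecidableEq Λ]
  (g : J → Λ → MvPolynomial (Fin 3) k) (lam : J → Λ)

/-- Combinations of squarefree monomials modulo the relations. -/
def In (q : MvPolynomial (Fin 3 ⊕ Idx lam) k) : Prop :=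
  ∃ c : Finset (Idx lam) → MvPolynomial (Fin 3) k,
    q - ∑ w, rename Sum.inl (c w) * ∏ i ∈ w, X (Sum.inr i) ∈ Rel g lam

variable {g lam}

theorem In.add {p q : MvPolynomial (Fin 3 ⊕ Idx lam) k} (hp : In g lam p) (hq : In g lam q) :
    In g lam (p + q) := by
  obtain ⟨c, hc⟩ := hp
  obtain ⟨d, hd⟩ := hq
  refine ⟨c + d, ?_⟩
  have h := Ideal.add_mem _ hc hd
  have e : p + q - ∑ w, rename Sum.inl ((c + d) w) * ∏ i ∈ w, X (Sum.inr i) =
      (p - ∑ w, rename Sum.inl (c w) * ∏ i ∈ w, X (Sum.inr i)) +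
        (q - ∑ w, rename Sum.inl (d w) * ∏ i ∈ w, X (Sum.inr i)) := by
    simp only [Pi.add_apply, map_add, add_mul, Finset.sum_add_distrib]
    ring
  rw [e]
  exact h

theorem In.mul {p : MvPolynomial (Fin 3 ⊕ Idx lam) k} (hp : In g lam p)
    (a : MvPolynomial (Fin 3) k) : In g lam (rename Sum.inl a * p) := by
  obtain ⟨c, hc⟩ := hp
  refine ⟨fun w => a * c w, ?_⟩
  have h := Ideal.mul_mem_left _ (rename Sum.inl a) hc
  have e : rename Sum.inl a * p - ∑ w, rename Sum.inl (a * c w) * ∏ i ∈ w, X (Sum.inr i) =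
      rename Sum.inl a * (p - ∑ w, rename Sum.inl (c w) * ∏ i ∈ w, X (Sum.inr i)) := by
    rw [mul_sub, Finset.mul_sum]
    congr 1
    exact Finset.sum_congr rfl fun w _ => by rw [map_mul, mul_assoc]
  rw [e]
  exact h

theorem In.of_rel {p : MvPolynomial (Fin 3 ⊕ Idx lam) k} (hp : p ∈ Rel g lam) : In g lam p :=
  ⟨0, by simpa using hp⟩

theorem In.congr {p q : MvPolynomial (Fin 3 ⊕ Idx lam) k} (hp : In g lam p)
    (h : q - p ∈ Rel g lam) : In g lam q := by
  have := hp.add (In.of_rel h)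
  rwa [add_sub_cancel] at this

theorem In.mon (a : MvPolynomial (Fin 3) k) (w : Finset (Idx lam)) :
    In g lam (rename Sum.inl a * ∏ i ∈ w, X (Sum.inr i)) := by
  classical
  refine ⟨fun w' => if w' = w then a else 0, ?_⟩
  have e : ∑ w', rename Sum.inl (if w' = w then a else 0) *
      ∏ i ∈ w', (X (Sum.inr i) : MvPolynomial (Fin 3 ⊕ Idx lam) k) =
      rename Sum.inl a * ∏ i ∈ w, X (Sum.inr i) := by
    rw [Finset.sum_eq_single w]
    · rw [if_pos rfl]
    · intro w' _ h
      rw [if_neg h, map_zero, zero_mul]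
    · intro h
      exact absurd (Finset.mem_univ w) h
  rw [e, sub_self]
  exact Ideal.zero_mem _

theorem In.sum {κ : Type} (s : Finset κ) (f : κ → MvPolynomial (Fin 3 ⊕ Idx lam) k)
    (h : ∀ i ∈ s, In g lam (f i)) : In g lam (∑ i ∈ s, f i) := by
  classical
  induction s using Finset.induction_on with
  | empty => simpa using In.of_rel (g := g) (lam := lam) (Ideal.zero_mem _)
  | insert a s ha ih =>
    rw [Finset.sum_insert ha]
    exact (h a (Finset.mem_insert_self a s)).add
      (ih fun i hi => h i (Finset.mem_insert_of_mem hi))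

/-- The product of the denominators times a variable times a squarefree monomial. -/
theorem In.step_mon (i : Idx lam) (a : MvPolynomial (Fin 3) k) (w : Finset (Idx lam)) :
    In g lam (rename Sum.inl (∏ j, g j (lam j)) *
      (X (Sum.inr i) * (rename Sum.inl a * ∏ i ∈ w, X (Sum.inr i)))) := by
  classical
  by_cases hi : i ∈ w
  · -- use the relation
    have h1 : rename Sum.inl (∏ j, g j (lam j)) =
        (rename Sum.inl (∏ j ∈ Finset.univ.erase i.1.1, g j (lam j)) *
          rename Sum.inl (g i.1.1 (lam i.1.1)) : MvPolynomial (Fin 3 ⊕ Idx lam) k) := by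
      rw [← map_mul, Finset.prod_erase_mul _ _ (Finset.mem_univ i.1.1)]
    have h2 : (∏ i ∈ w, X (Sum.inr i) : MvPolynomial (Fin 3 ⊕ Idx lam) k) =
        X (Sum.inr i) * ∏ i ∈ w.erase i, X (Sum.inr i) := by
      rw [Finset.mul_prod_erase w (fun i => (X (Sum.inr i) : MvPolynomial (Fin 3 ⊕ Idx lam) k)) hi]
    refine (In.mon (g := g) (lam := lam)
      ((∏ j ∈ Finset.univ.erase i.1.1, g j (lam j)) * a * g i.1.1 i.1.2) (w.erase i)).congr ?_
    have h3 : rel g lam i ∈ Rel g lam := Ideal.subset_span ⟨i, rfl⟩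
    have h4 := Ideal.mul_mem_left _
      (rename Sum.inl (∏ j ∈ Finset.univ.erase i.1.1, g j (lam j)) * rename Sum.inl a *
        ∏ i ∈ w.erase i, X (Sum.inr i)) h3
    convert h4 using 1
    rw [h1, h2, map_mul, map_mul, rel]
    ring
  · have h2 : (∏ i ∈ insert i w, X (Sum.inr i) : MvPolynomial (Fin 3 ⊕ Idx lam) k) =
        X (Sum.inr i) * ∏ i ∈ w, X (Sum.inr i) := Finset.prod_insert hi
    have h := In.mon (g := g) (lam := lam) ((∏ j, g j (lam j)) * a) (insert i w)
    rw [h2, map_mul] at h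
    convert h using 1
    ring

theorem In.step {p : MvPolynomial (Fin 3 ⊕ Idx lam) k} (hp : In g lam p) (i : Idx lam) :
    In g lam (rename Sum.inl (∏ j, g j (lam j)) * (X (Sum.inr i) * p)) := by
  obtain ⟨c, hc⟩ := hp
  have h1 := In.sum (g := g) (lam := lam) Finset.univ
    (fun w => rename Sum.inl (∏ j, g j (lam j)) *
      (X (Sum.inr i) * (rename Sum.inl (c w) * ∏ i ∈ w, X (Sum.inr i))))
    (fun w _ => In.step_mon i (c w) w)
  refine h1.congr ?_
  have h2 := Ideal.mul_mem_left _ (rename Sum.inl (∏ j, g j (lam j)) * X (Sum.inr i)) hc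
  convert h2 using 1
  rw [mul_sub, Finset.mul_sum, mul_assoc]
  congr 1
  exact Finset.sum_congr rfl fun w _ => by rw [mul_assoc]

end

theorem span : SPAN_S := by
  intro k J Λ _ _ _ _ _ g lam p
  suffices h : ∃ N : ℕ, In g lam (rename Sum.inl (∏ j, g j (lam j)) ^ N * p) by
    obtain ⟨N, c, hc⟩ := h
    exact ⟨N, c, hc⟩
  induction p using MvPolynomial.induction_on with
  | C a =>
    refine ⟨0, ?_⟩
    have h := In.mon (g := g) (lam := lam) (C a) ∅
    simpa using h
  | add p q hp hq =>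
    obtain ⟨N, hN⟩ := hp
    obtain ⟨M, hM⟩ := hq
    refine ⟨N + M, ?_⟩
    have h1 := hN.mul ((∏ j, g j (lam j)) ^ M)
    have h2 := hM.mul ((∏ j, g j (lam j)) ^ N)
    have h3 := h1.add h2
    convert h3 using 1
    rw [map_pow, map_pow]
    ring
  | mul_X p v hp =>
    obtain ⟨N, hN⟩ := hp
    rcases v with v | i
    · refine ⟨N, ?_⟩
      have h := hN.mul (X v)
      rw [rename_X] at h
      convert h using 1
      ring
    · refine ⟨N + 1, ?_⟩
      have h := hN.step i
      convert h using 1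
      ring

end Pool.Agent.PI.FZ.H38
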